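import Mathlib
import Pool.Agent.H5.Goddyn.Perm
import Pool.Agent.H98.TC.Defs

/-!
MP_a46c6f_co, common interface: numbered permutation graphs, the graphs `HG π a b` (`E1`) and
`TG π a b` (`E2`), and the pair `(P₁₀, w₁₀)`.
-/

set_option autoImplicit false

namespace Pool.Agent.H62.TH

open SimpleGraph Pool.Agent.H5.Goddyn Pool.Agent.H98.TC

/-- `x i`, `y j` number the vertices of `C₁` and of `C₂` cyclically, `M` joins `x i` and `y (π i)`. -/
structure IsNumbered {V : Type*} (G : SimpleGraph V) (M : G.Subgraph) (n : ℕ) (x y : ZMod n → V)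
    (π : Equiv.Perm (ZMod n)) : Prop where
  three : 3 ≤ n
  injx : Function.Injective x
  injy : Function.Injective y
  cover : ∀ v, (∃ i, x i = v) ∨ ∃ i, y i = v
  disj : ∀ i j, x i ≠ y j
  adjx : ∀ i j, G.Adj (x i) (x j) ↔ (j = i + 1 ∨ i = j + 1)
  adjy : ∀ i j, G.Adj (y i) (y j) ↔ (j = i + 1 ∨ i = j + 1)
  adjxy : ∀ i j, G.Adj (x i) (y j) ↔ j = π i
  mat : ∀ u v, M.Adj u v ↔ ∃ i, (u = x i ∧ v = y (π i)) ∨ (u = y (π i) ∧ v = x i)

/-- The partner of `i` in the perfect matching `{a+1,a+2}, {a+3,a+4}, …` of `ZMod n - {a}` (`n` odd);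
`a` itself is fixed. -/
def r {n : ℕ} (a i : ZMod n) : ZMod n :=
  if i = a then a else if (i - a).val % 2 = 1 then i + 1 else i - 1

/-- adjacency in `E1(a,b)` -/
def hadj {n : ℕ} (π : Equiv.Perm (ZMod n)) (a b : ZMod n) : ZMod n ⊕ ZMod n → ZMod n ⊕ ZMod n → Prop
  | .inl i, .inl j => i ≠ j ∧ r a i = j ∧ r a j = i
  | .inr i, .inr j => i ≠ j ∧ r b i = j ∧ r b j = i
  | .inl i, .inr j => j = π i
  | .inr j, .inl i => j = π i

/-- adjacency in `E2(a,b)` -/
def tadj {n : ℕ} (π : Equiv.Perm (ZMod n)) (a b : ZMod n) : ZMod n ⊕ ZMod n → ZMod n ⊕ ZMod n → Prop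
  | .inl i, .inl j => i ≠ j ∧ (j = i + 1 ∨ i = j + 1) ∧ ¬ (r a i = j)  ∧ ¬ (r a j = i)
  | .inr i, .inr j => i ≠ j ∧ (j = i + 1 ∨ i = j + 1) ∧ ¬ (r b i = j)  ∧ ¬ (r b j = i)
  | .inl i, .inr j => j = π i
  | .inr j, .inl i => j = π i

/-- `E1(a,b) = M + R_a + B_b`: a path from `x a` to `y b` and alternating circuits. -/
def HG {n : ℕ} (π : Equiv.Perm (ZMod n)) (a b : ZMod n) : SimpleGraph (ZMod n ⊕ ZMod n) where
  Adj := hadj π a b
  symm := ⟨by
    rintro (i | i) (j | j) h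
    · exact ⟨h.1.symm, h.2.2, h.2.1⟩
    · exact h
    · exact h
    · exact ⟨h.1.symm, h.2.2, h.2.1⟩⟩
  loopless := ⟨by
    rintro (i | i) h
    · exact h.1 rfl
    · exact h.1 rfl⟩

/-- `E2(a,b) = M + (C₁ - R_a) + (C₂ - B_b)`. -/
def TG {n : ℕ} (π : Equiv.Perm (ZMod n)) (a b : ZMod n) : SimpleGraph (ZMod n ⊕ ZMod n) where
  Adj := tadj π a b
  symm := ⟨by
    rintro (i | i) (j | j) h
    · exact ⟨h.1.symm, h.2.1.symm, h.2.2.2, h.2.2.1⟩
    · exact h
    · exact h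
    · exact ⟨h.1.symm, h.2.1.symm, h.2.2.2, h.2.2.1⟩⟩
  loopless := ⟨by
    rintro (i | i) h
    · exact h.1 rfl
    · exact h.1 rfl⟩

/-- The combinatorial statement (THETA) for one permutation: some `E2(a,b)` has no bridge (its big
component is a theta), and `E1(a,b)` or `E2(a,b)` contains a circuit component. -/
def Good {n : ℕ} (π : Equiv.Perm (ZMod n)) : Prop :=
  ∃ a b, Bridgeless (TG π a b) ∧ ¬ ((HG π a b).Connected ∧ (TG π a b).Connected)

/-- The Petersen permutations. -/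
def IsPet (π : Equiv.Perm (ZMod 5)) : Prop := (∀ i, π (i + 1) = π i + 2) ∨ ∀ i, π (i + 1) = π i - 2

/-- `P₁₀`: outer pentagon `inl i`, inner pentagram `inr i`. -/
def P10 : SimpleGraph (ZMod 5 ⊕ ZMod 5) where
  Adj
    | .inl i, .inl j => j = i + 1 ∨ i = j + 1
    | .inr i, .inr j => j = i + 2 ∨ i = j + 2
    | .inl i, .inr j => i = j
    | .inr j, .inl i => i = j
  symm := ⟨by
    rintro (i | i) (j | j) h
    · exact h.symm
    · exact h
    · exact h
    · exact h.symm⟩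
  loopless := ⟨by
    rintro (i | i) (h | h)
    · exact absurd h (by revert i; decide)
    · exact absurd h (by revert i; decide)
    · exact absurd h (by revert i; decide)
    · exact absurd h (by revert i; decide)⟩

open Classical in
/-- `w₁₀`: weight `2` on the spokes of `P₁₀`, weight `1` on the other edges. -/
noncomputable def w10 (e : Sym2 (ZMod 5 ⊕ ZMod 5)) : ℕ :=
  if ∃ i : ZMod 5, e = s(Sum.inl i, Sum.inr i) then 2 else 1

end Pool.Agent.H62.TH
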